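import Pool.Agent.H48.MT.Targets

open scoped ComplexConjugate

namespace Pool.Agent.H38.MT

open Pool.Agent.H48.MT

theorem cnj : T_CNJ := by
  intro H _ _ _
  obtain ⟨w, b, -⟩ := exists_hilbertBasis ℂ H
  have hinv : ∀ x : H, b.repr.symm (star (b.repr (b.repr.symm (star (b.repr x))))) = x := by
    intro x
    simp
  refine ⟨{ U := ⟨fun x => b.repr.symm (star (b.repr x)), fun x => b.repr.symm (star (b.repr x)),
              hinv, hinv⟩
            add := ?_
            nrm := ?_
            s := fun c => conj c
            hs := Or.inr fun _ => rfl
            smul := ?_ }, fun c => rfl⟩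
  · intro x y
    simp [star_add]
  · intro x
    simp [norm_star]
  · intro c x
    simp only [Equiv.coe_fn_mk, map_smul, star_smul]
    rfl

end Pool.Agent.H38.MT
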