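import Pool.Agent.H79.MT.Targets5

open Pool.Agent.H48.MT InnerProductSpace Filter Topology
open scoped ComplexConjugate

namespace Pool.Agent.H38.MT

open Pool.Agent.H79.MT5

section
variable {H : Type} [NormedAddCommGroup H] [InnerProductSpace ℂ H]

theorem exsc (h : Module.finrank ℂ H = 1) (T : H →L[ℂ] H) : ∃ c : ℂ, T = c • 1 := by
  obtain ⟨v, hv0, hv⟩ := finrank_eq_one_iff'.1 h
  obtain ⟨c, hc⟩ := hv (T v)
  refine ⟨c, ?_⟩
  ext w
  obtain ⟨d, rfl⟩ := hv w
  simp only [map_smul, ContinuousLinearMap.smul_apply, ContinuousLinearMap.one_apply]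
  rw [← hc]

theorem unsc (h : Module.finrank ℂ H = 1) {a b : ℂ} (hab : (a • 1 : H →L[ℂ] H) = b • 1) :
    a = b := by
  obtain ⟨v, hv0, -⟩ := finrank_eq_one_iff'.1 h
  have h1 := congrArg (fun T : H →L[ℂ] H => T v) hab
  simp only [ContinuousLinearMap.smul_apply, ContinuousLinearMap.one_apply] at h1
  exact smul_left_injective ℂ hv0 h1
end

theorem da (hbas : Pool.Agent.H48.MT.T_BAS) : T_DA := by
  intro H _ _ _ h
  refine ⟨fun T => ?_, fun L hL T => ?_, fun Φ hΦ => ?_, fun Φ f hf hΦ => ?_⟩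
  · obtain ⟨c, hc⟩ := exsc h T
    exact ⟨c, hc, fun d hd => unsc h (hd.symm.trans hc)⟩
  · obtain ⟨c, rfl⟩ := exsc h T
    apply (hbas H L hL).2.2.1
    constructor
    rw [star_smul, star_one]
    exact ((Commute.one_left _).smul_left _)
  · choose f hf using fun c : ℂ => exsc h (Φ (c • 1))
    refine ⟨f, ⟨fun a b hab => ?_, fun d => ?_⟩, hf⟩
    · apply unsc h
      apply hΦ.1
      rw [hf a, hf b, hab]
    · obtain ⟨T, hT⟩ := hΦ.2 (d • 1)
      obtain ⟨c, rfl⟩ := exsc h T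
      refine ⟨c, unsc h ?_⟩
      rw [← hf c, hT]
  · constructor
    · intro A B hAB
      obtain ⟨a, rfl⟩ := exsc h A
      obtain ⟨b, rfl⟩ := exsc h B
      rw [hΦ, hΦ] at hAB
      rw [hf.1 (unsc h hAB)]
    · intro D
      obtain ⟨d, rfl⟩ := exsc h D
      obtain ⟨c, rfl⟩ := hf.2 d
      exact ⟨c • 1, hΦ c⟩

end Pool.Agent.H38.MT
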