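import Pool.Agent.H79.MT.Targets5

open Pool.Agent.H48.MT InnerProductSpace Filter Topology
open scoped ComplexConjugate

namespace Pool.Agent.H38.MT

open Pool.Agent.H79.MT5

theorem mulfun {g : ℂ → ℂ} {N : ℕ} (hN : 1 ≤ N) (h : ∀ a b, g (a ^ N * b) = g a ^ N * g b)
    (h1 : g 1 = 1) (a b : ℂ) : g (a * b) = g a * g b := by
  obtain ⟨r, hr⟩ := IsAlgClosed.exists_pow_nat_eq a (Nat.pos_of_ne_zero (by omega) : 0 < N)
  have h2 := h r 1
  rw [mul_one, h1, mul_one] at h2
  rw [← hr, h2, ← h]

theorem db (hda : T_DA) : T_DB := by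
  intro H _ _ _ hH L hL Φ
  obtain ⟨hsc, hid, hf, hinv⟩ := hda H hH
  replace hid := hid L hL
  have ex : ∀ T : H →L[ℂ] H, ∃ c : ℂ, T = c • 1 := fun T => (hsc T).exists
  have un : ∀ {a b : ℂ}, (a • 1 : H →L[ℂ] H) = b • 1 → a = b := by
    intro a b hab
    exact (hsc (a • 1)).unique rfl hab
  have mul1 : ∀ a b : ℂ, (a • 1 : H →L[ℂ] H) * (b • 1) = (a * b) • 1 := by
    intro a b
    rw [smul_mul_smul_comm, one_mul]
  have jp1 : ∀ a b : ℂ, jp (a • 1 : H →L[ℂ] H) (b • 1) = (a * b) • 1 := by
    intro a b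
    rw [jp, mul1, mul1, mul_comm b a, ← two_smul ℂ, smul_smul]
    norm_num
  have star1 : ∀ a : ℂ, star (a • 1 : H →L[ℂ] H) = (conj a) • 1 := by
    intro a
    rw [star_smul, star_one]
    rfl
  have pow1 : ∀ (a : ℂ) (n : ℕ), (a • 1 : H →L[ℂ] H) ^ n = (a ^ n) • 1 := by
    intro a n
    rw [smul_pow, one_pow]
  refine ⟨?_, ?_, ?_, ?_, ?_⟩
  · constructor
    · rintro ⟨hb, he⟩
      obtain ⟨f, hfb, hfe⟩ := hf Φ hb
      refine ⟨f, hfb, fun a b => ?_, hfe⟩
      have h := he (a • 1) (b • 1)
      rw [hid, hid, hfe, hfe, mul1, mul1, hfe] at h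
      exact (un h).symm
    · rintro ⟨f, hfb, hfm, hfe⟩
      refine ⟨hinv Φ f hfb hfe, fun A B => ?_⟩
      obtain ⟨a, rfl⟩ := ex A
      obtain ⟨b, rfl⟩ := ex B
      rw [hid, hid, hfe, hfe, mul1, mul1, hfe, hfm]
  · constructor
    · rintro ⟨hb, he⟩
      obtain ⟨f, hfb, hfe⟩ := hf Φ hb
      refine ⟨f, hfb, fun a b => ?_, hfe⟩
      have h := he (a • 1) (b • 1)
      rw [hid, hid, hfe, hfe, jp1, jp1, hfe] at h
      exact (un h).symm
    · rintro ⟨f, hfb, hfm, hfe⟩
      refine ⟨hinv Φ f hfb hfe, fun A B => ?_⟩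
      obtain ⟨a, rfl⟩ := ex A
      obtain ⟨b, rfl⟩ := ex B
      rw [hid, hid, hfe, hfe, jp1, jp1, hfe, hfm]
  · constructor
    · rintro ⟨hb, he⟩
      obtain ⟨f, hfb, hfe⟩ := hf Φ hb
      have key : ∀ a b, f a * conj (f b) = f (a * conj b) := by
        intro a b
        have h := he (a • 1) (b • 1)
        rw [hid, hid, hfe, hfe, star1, star1, jp1, jp1, hfe] at h
        exact un h
      have h10 : f 1 ≠ 0 := by
        intro h0
        obtain ⟨a, ha⟩ := hfb.2 1
        have h := key a 1
        rw [h0, map_one, mul_one, map_zero, mul_zero, ha] at h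
        exact zero_ne_one h
      have h11 : f 1 = 1 := by
        have h := key 1 1
        rw [map_one, mul_one] at h
        have h2 : conj (f 1) = 1 := by
          have := mul_left_cancel₀ h10 (h.trans (mul_one (f 1)).symm)
          exact this
        have h3 := congrArg conj h2
        rw [Complex.conj_conj, map_one] at h3
        exact h3
      have hc : ∀ b, f (conj b) = conj (f b) := by
        intro b
        have h := key 1 b
        rw [h11, one_mul, one_mul] at h
        exact h.symm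
      refine ⟨f, hfb, fun a b => ?_, hc, hfe⟩
      have h := key a (conj b)
      rw [Complex.conj_conj, hc, Complex.conj_conj] at h
      exact h.symm
    · rintro ⟨f, hfb, hfm, hfc, hfe⟩
      refine ⟨hinv Φ f hfb hfe, fun A B => ?_⟩
      obtain ⟨a, rfl⟩ := ex A
      obtain ⟨b, rfl⟩ := ex B
      rw [hid, hid, hfe, hfe, star1, star1, jp1, jp1, hfe, hfm, hfc]
  · intro n k hnk
    have prod1 : ∀ a b : ℂ, (a • 1 : H →L[ℂ] H) ^ n * (b • 1) * (a • 1) ^ k =
        (a ^ (n + k) * b) • 1 := by
      intro a b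
      rw [pow1, pow1, mul1, mul1]
      congr 1
      ring
    constructor
    · rintro ⟨hb, he⟩
      obtain ⟨g, hgb, hge⟩ := hf Φ hb
      have key : ∀ a b, g a ^ (n + k) * g b = g (a ^ (n + k) * b) := by
        intro a b
        have h := he (a • 1) (b • 1)
        rw [hid, hid, hge, hge, prod1, prod1, hge] at h
        exact un h
      have hz0 : g 0 = 0 := by
        obtain ⟨a, ha⟩ := hgb.2 0
        have h := key a 0
        rw [ha, mul_zero, zero_pow (by omega), zero_mul] at h
        exact h.symm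
      have hz1 : g 1 ≠ 0 := by
        intro h
        exact one_ne_zero (hgb.1 (h.trans hz0.symm))
      have hzN : g 1 ^ (n + k) = 1 := by
        have h := key 1 1
        rw [one_pow, one_mul] at h
        have := mul_right_cancel₀ hz1 (h.trans (one_mul (g 1)).symm)
        exact this
      refine ⟨fun c => (g 1)⁻¹ * g c, g 1, ?_, ?_, hzN, ?_⟩
      · have : (fun c => (g 1)⁻¹ * g c) = (fun x => (g 1)⁻¹ * x) ∘ g := rfl
        rw [this]
        exact (mulLeft_bijective₀ _ (inv_ne_zero hz1)).comp hgb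
      · refine mulfun (g := fun c => (g 1)⁻¹ * g c) hnk ?_ ?_
        · intro a b
          show (g 1)⁻¹ * g (a ^ (n + k) * b) = ((g 1)⁻¹ * g a) ^ (n + k) * ((g 1)⁻¹ * g b)
          rw [← key, mul_pow, inv_pow, hzN]
          ring
        · show (g 1)⁻¹ * g 1 = 1
          field_simp
      · intro c
        rw [hge, mul_inv_cancel_left₀ hz1]
    · rintro ⟨f, z, hfb, hfm, hz, hfe⟩
      have hz0 : z ≠ 0 := by
        intro h
        rw [h, zero_pow (by omega)] at hz
        exact zero_ne_one hz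
      have hb : Function.Bijective (fun c => z * f c) :=
        (mulLeft_bijective₀ _ hz0).comp hfb
      refine ⟨hinv Φ _ hb hfe, fun A B => ?_⟩
      obtain ⟨a, rfl⟩ := ex A
      obtain ⟨b, rfl⟩ := ex B
      have hpow : ∀ (m : ℕ), f (a ^ (m + 1)) = f a ^ (m + 1) := by
        intro m
        induction m with
        | zero => simp
        | succ m ih => rw [pow_succ, hfm, ih, pow_succ _ (m + 1)]
      obtain ⟨m, hm⟩ : ∃ m, n + k = m + 1 := ⟨n + k - 1, by omega⟩
      rw [hid, hid, hfe, hfe, prod1, prod1, hfe, hfm, mul_pow, hz, hm, hpow]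
      congr 1
      ring
  · intro w hw
    have add1 : ∀ a b : ℂ, (a • 1 : H →L[ℂ] H) + w • (b • 1) = (a + w * b) • 1 := by
      intro a b
      rw [smul_smul, ← add_smul]
    constructor
    · rintro ⟨hb, he⟩
      obtain ⟨f, hfb, hfe⟩ := hf Φ hb
      have key : ∀ a b, f a + w * f b = f (a + w * b) := by
        intro a b
        have h := he (a • 1) (b • 1)
        rw [hid, hid, hfe, hfe, add1, add1, hfe] at h
        exact un h
      have h0 : f 0 = 0 := by
        have h := key 0 0
        rw [mul_zero, add_zero] at h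
        have h2 : w * f 0 = 0 := by linear_combination h
        exact (mul_eq_zero.1 h2).resolve_left hw
      have hh : ∀ a, f (w * a) = w * f a := by
        intro a
        have h := key 0 a
        rw [h0, zero_add, zero_add] at h
        exact h.symm
      refine ⟨f, hfb, fun a b => ?_, hh, hfe⟩
      have h := key a (b / w)
      rw [← hh, mul_div_cancel₀ _ hw] at h
      exact h.symm
    · rintro ⟨f, hfb, hfa, hfw, hfe⟩
      refine ⟨hinv Φ f hfb hfe, fun A B => ?_⟩
      obtain ⟨a, rfl⟩ := ex A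
      obtain ⟨b, rfl⟩ := ex B
      rw [hid, hid, hfe, hfe, add1, add1, hfe, hfa, hfw]

end Pool.Agent.H38.MT
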