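import Pool.Agent.H48.MT.Targets

open scoped ComplexConjugate

namespace Pool.Agent.H38.MT

open Pool.Agent.H48.MT

theorem fld : T_FLD := by
  intro f hm ha h1 hd
  obtain ⟨δ, hδ, hre⟩ := hd
  have h0 : f 0 = 0 := by
    have := ha 0 0
    simp at this
    exact this
  have hneg : ∀ a, f (-a) = -f a := by
    intro a
    have := ha a (-a)
    rw [add_neg_cancel, h0] at this
    linear_combination -this
  have hnat : ∀ n : ℕ, f n = n := by
    intro n
    induction n with
    | zero => simpa using h0
    | succ n ih =>
      push_cast
      rw [ha, ih, h1]
  -- reals go to reals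
  have hreal : ∀ r : ℝ, (f r).im = 0 := by
    have hpos : ∀ r : ℝ, 0 ≤ r → (f r).im = 0 := by
      intro r hr
      obtain ⟨n, hn⟩ := exists_nat_gt (r / δ)
      have hn0 : (0 : ℝ) < n := lt_of_le_of_lt (by positivity) hn
      have h2 := hre (r / n) (by positivity) (by
        rw [div_le_iff₀ hn0]
        rw [div_lt_iff₀ hδ] at hn
        linarith [mul_comm (n : ℝ) δ])
      have h3 : f r = f (n : ℂ) * f ((r / n : ℝ) : ℂ) := by
        rw [← hm]
        congr 1
        push_cast
        have : (n : ℂ) ≠ 0 := by
          exact_mod_cast hn0.ne'
        field_simp
      rw [h3, hnat, Complex.mul_im, h2]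
      simp
    intro r
    rcases le_total 0 r with h | h
    · exact hpos r h
    · have := hpos (-r) (by linarith)
      push_cast at this
      rw [hneg] at this
      simpa using this
  have hg : ∀ r : ℝ, f r = ((f r).re : ℂ) := by
    intro r
    apply Complex.ext
    · simp
    · simp [hreal r]
  let g : ℝ →+* ℝ :=
    { toFun := fun r => (f r).re
      map_one' := by simp [h1]
      map_mul' := by
        intro x y
        push_cast
        rw [hm, Complex.mul_re, hreal x, hreal y]
        simp
      map_zero' := by simp [h0]
      map_add' := by
        intro x y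
        push_cast
        rw [ha, Complex.add_re] }
  have hgid : ∀ r : ℝ, f r = r := by
    intro r
    rw [hg r]
    have : g r = r := by
      have : g = RingHom.id ℝ := Subsingleton.elim _ _
      rw [this]; rfl
    have h2 : (f r).re = r := this
    rw [h2]
  have hI : f Complex.I = Complex.I ∨ f Complex.I = -Complex.I := by
    have : f Complex.I * f Complex.I = -1 := by
      rw [← hm, Complex.I_mul_I, hneg, h1]
    have h2 : (f Complex.I - Complex.I) * (f Complex.I + Complex.I) = 0 := by
      have := Complex.I_mul_I
      linear_combination ‹f Complex.I * f Complex.I = -1› - this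
    rcases mul_eq_zero.1 h2 with h | h
    · left; linear_combination h
    · right; linear_combination h
  have key : ∀ a : ℂ, f a = a.re + a.im * f Complex.I := by
    intro a
    conv_lhs => rw [← Complex.re_add_im a]
    rw [ha, hm, hgid, hgid]
  rcases hI with h | h
  · left
    intro a
    rw [key a, h]
    exact Complex.re_add_im a
  · right
    intro a
    rw [key a, h]
    apply Complex.ext <;> simp

end Pool.Agent.H38.MT
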