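import Pool.Agent.H48.MT.Targets

open scoped ComplexConjugate

namespace Pool.Agent.H38.MT

open Pool.Agent.H48.MT

section
variable {H : Type} [NormedAddCommGroup H] [InnerProductSpace ℂ H]

lemma dens (u : H) (hu : u ≠ 0) : Dense {v : H | inner ℂ v u ≠ 0} := by
  have h1 : {v : H | inner ℂ v u ≠ 0} = ((((ℂ ∙ u)ᗮ : Submodule ℂ H) : Set H))ᶜ := by
    ext v
    simp only [Set.mem_setOf_eq, Set.mem_compl_iff, SetLike.mem_coe]
    rw [Submodule.mem_orthogonal_singleton_iff_inner_left]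
  rw [h1, ← interior_eq_empty_iff_dense_compl]
  by_contra h
  have h2 := Submodule.eq_top_of_nonempty_interior' ((ℂ ∙ u)ᗮ) (Set.nonempty_iff_ne_empty.2 h)
  have h3 : u ∈ (ℂ ∙ u)ᗮ := by rw [h2]; trivial
  rw [Submodule.mem_orthogonal_singleton_iff_inner_left] at h3
  exact hu (inner_self_eq_zero.1 h3)

lemma opn (u : H) : IsOpen {v : H | inner ℂ v u ≠ 0} :=
  isOpen_ne_fun (by fun_prop) continuous_const

lemma dens3 (u c d : H) (hu : u ≠ 0) (hc : c ≠ 0) (hd : d ≠ 0) :
    Dense {v : H | inner ℂ v u ≠ 0 ∧ inner ℂ v c ≠ 0 ∧ inner ℂ v d ≠ 0} := by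
  have h := ((dens u hu).inter_of_isOpen_left ((dens c hc).inter_of_isOpen_left (dens d hd)
    (opn c)) (opn u))
  exact h
end

theorem gen : T_GEN := by
  intro H _ _ _ u b c d hu hc hd
  refine ⟨(dens3 u c d hu hc hd).nonempty, ?_⟩
  intro hb
  by_contra hcon
  push Not at hcon
  have hcl : IsClosed {v : H | inner ℂ v b ^ 2 = inner ℂ v u * inner ℂ v c} :=
    isClosed_eq (by fun_prop) (by fun_prop)
  have hall : ∀ v : H, inner ℂ v b ^ 2 = inner ℂ v u * inner ℂ v c := by
    intro v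
    have h1 : closure {v : H | inner ℂ v u ≠ 0 ∧ inner ℂ v c ≠ 0 ∧ inner ℂ v d ≠ 0} ⊆
        {v : H | inner ℂ v b ^ 2 = inner ℂ v u * inner ℂ v c} :=
      closure_minimal (fun v hv => hcon v hv.1 hv.2.1 hv.2.2) hcl
    rw [(dens3 u c d hu hc hd).closure_eq] at h1
    exact h1 (Set.mem_univ v)
  -- the component of b orthogonal to u
  have huu : inner ℂ u u ≠ (0 : ℂ) := fun h => hu (inner_self_eq_zero.1 h)
  set a : ℂ := inner ℂ u b / inner ℂ u u with ha
  set v : H := b - a • u with hv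
  have hv0 : v ≠ 0 := by
    intro h
    exact hb a (sub_eq_zero.1 h)
  have huv : inner ℂ u v = (0 : ℂ) := by
    rw [hv, inner_sub_right, inner_smul_right, ha]
    field_simp
    ring
  have hvu : inner ℂ v u = (0 : ℂ) := by
    rw [← inner_conj_symm, huv, map_zero]
  have hvb : inner ℂ v b = inner ℂ v v := by
    have : b = v + a • u := by rw [hv]; abel
    conv_lhs => rw [this]
    rw [inner_add_right, inner_smul_right, hvu]
    ring
  have := hall v
  rw [hvu, hvb, zero_mul] at this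
  exact hv0 (inner_self_eq_zero.1 (pow_eq_zero_iff (by norm_num) |>.1 this))

end Pool.Agent.H38.MT
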