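import Pool.Agent.H48.MT.Targets

open scoped ComplexConjugate

namespace Pool.Agent.H38.MT

open Pool.Agent.H48.MT

theorem mon : T_MON := by
  intro g hm h0 h1 hz hI hh
  -- real valued function on [0,1]
  choose! r hr0 hr1 hr using hI
  have rpos : ∀ t : ℝ, 0 < t → t ≤ 1 → 0 < r t := by
    intro t ht ht1
    rcases (hr0 t ht.le ht1).lt_or_eq with h | h
    · exact h
    · exfalso
      have := hr t ht.le ht1
      rw [← h] at this
      have h2 := hz _ (by simpa using this)
      exact ht.ne' (by exact_mod_cast h2)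
  have rmul : ∀ s t : ℝ, 0 ≤ s → s ≤ 1 → 0 ≤ t → t ≤ 1 → r (s * t) = r s * r t := by
    intro s t hs hs1 ht ht1
    have h3 := hr (s * t) (by positivity) (by nlinarith)
    have h4 := hm (s : ℂ) (t : ℂ)
    rw [hr s hs hs1, hr t ht ht1] at h4
    push_cast at h3
    rw [h3] at h4
    exact_mod_cast h4
  have r1 : r 1 = 1 := by
    have := hr 1 (by norm_num) le_rfl
    push_cast at this
    rw [h1] at this
    exact_mod_cast this.symm
  have rhalf : r (1 / 2) = 1 / 2 := by
    have := hr (1 / 2) (by norm_num) (by norm_num)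
    rw [hh] at this
    exact_mod_cast this.symm
  have rpow : ∀ (t : ℝ) (n : ℕ), 0 ≤ t → t ≤ 1 → r (t ^ n) = r t ^ n := by
    intro t n ht ht1
    induction n with
    | zero => simpa using r1
    | succ n ih =>
      rw [pow_succ, pow_succ, rmul _ _ (by positivity) (pow_le_one₀ ht ht1) ht ht1, ih]
  have rmono : ∀ s t : ℝ, 0 < s → s ≤ t → t ≤ 1 → r s ≤ r t := by
    intro s t hs hst ht1
    have ht : 0 < t := by linarith
    have h3 : s = t * (s / t) := by field_simp
    have h4 : s / t ≤ 1 := by rw [div_le_one ht]; exact hst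
    rw [h3, rmul t (s / t) ht.le ht1 (by positivity) h4]
    have h5 := hr1 (s / t) (by positivity) h4
    have h6 := hr0 t ht.le ht1
    nlinarith
  have main : ∀ t : ℝ, 0 < t → t ≤ 1 → r t = t := by
    intro t ht ht1
    have hrt := rpos t ht ht1
    have bound : ∀ n : ℕ, r t ^ n ≤ 2 * t ^ n ∧ t ^ n ≤ 2 * r t ^ n := by
      intro n
      have htn : 0 < t ^ n := by positivity
      have htn1 : t ^ n ≤ 1 := pow_le_one₀ ht.le ht1
      obtain ⟨k, hk1, hk2⟩ := exists_nat_pow_near_of_lt_one htn htn1 (by norm_num : (0 : ℝ) < 1 / 2)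
        (by norm_num)
      have e1 := rmono _ _ htn hk2 (pow_le_one₀ (by norm_num) (by norm_num))
      have e2 := rmono ((1 / 2) ^ (k + 1)) (t ^ n) (by positivity) hk1.le htn1
      rw [rpow _ _ ht.le ht1, rpow _ _ (by norm_num) (by norm_num), rhalf] at e1
      rw [rpow _ _ ht.le ht1, rpow _ _ (by norm_num) (by norm_num), rhalf] at e2
      rw [pow_succ] at e2 hk1
      constructor <;> linarith
    have grow : ∀ x : ℝ, 1 < x → ∃ n : ℕ, 2 < x ^ n := fun x hx => pow_unbounded_of_one_lt 2 hx
    rcases lt_trichotomy (r t) t with h | h | h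
    · exfalso
      obtain ⟨n, hn⟩ := grow (t / r t) (by rw [lt_div_iff₀ hrt]; linarith)
      rw [div_pow, lt_div_iff₀ (by positivity)] at hn
      linarith [(bound n).2]
    · exact h
    · exfalso
      obtain ⟨n, hn⟩ := grow (r t / t) (by rw [lt_div_iff₀ ht]; linarith)
      rw [div_pow, lt_div_iff₀ (by positivity)] at hn
      linarith [(bound n).1]
  intro t ht
  rcases ht.lt_or_eq with h | h
  · rcases le_total t 1 with h2 | h2
    · rw [hr t ht h2, main t h h2]
    · have h3 : (1 / t) ≤ 1 := by rw [div_le_one h]; exact h2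
      have h4 : g ((1 / t : ℝ) : ℂ) = ((1 / t : ℝ) : ℂ) := by
        rw [hr _ (by positivity) h3, main _ (by positivity) h3]
      have h5 := hm (t : ℂ) ((1 / t : ℝ) : ℂ)
      have h6 : (t : ℂ) * ((1 / t : ℝ) : ℂ) = 1 := by
        push_cast
        have : (t : ℂ) ≠ 0 := by exact_mod_cast h.ne'
        field_simp
      rw [h6, h1, h4] at h5
      have h7 : (t : ℂ) ≠ 0 := by exact_mod_cast h.ne'
      push_cast at h5
      field_simp at h5
      exact h5.symm
  · rw [← h]; simpa using h0

end Pool.Agent.H38.MT
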